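import Pool.Agent.PFS.Stmts

/-!
# PFS squad: rows CLO, CRT, LIN, FUN, ELM, LIM, LPS
-/

set_option autoImplicit false

open Matrix Filter Topology

namespace Pool.Agent.PFS.H60

theorem clo (lim0 : Lim0Stmt) (zom : ZomStmt) : CloStmt := by
  intro n C Γ h y y0 hyH hy hyC hy0
  obtain ⟨c, hc, hcH⟩ := h.core
  have hul := h.hul
  have ht : ∀ m : ℕ, (0 : ℝ) < 1 / ((m : ℝ) + 1) := fun m => by positivity
  have h1 : ∀ m : ℕ, y m + (1 / ((m : ℝ) + 1)) • c ∈ C := fun m =>
    h.cl_add' (hul.hullCl _ (hyH m)) (h.smul c hc _ (ht m))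
  have h2 : ∀ m : ℕ, y m + (1 / ((m : ℝ) + 1)) • c ∈ Hull C Γ := fun m =>
    hul.add _ (hyH m) _ (hul.smul c hcH _ (ht m))
  have h3 : Tendsto (fun m : ℕ => y m + (1 / ((m : ℝ) + 1)) • c) atTop (𝓝 y0) := by
    have h5 : Tendsto (fun m : ℕ => (1 / ((m : ℝ) + 1)) • c) atTop (𝓝 ((0 : ℝ) • c)) :=
      tendsto_one_div_add_atTop_nhds_zero_nat.smul_const c
    have h6 := hy.add h5
    rwa [zero_smul, add_zero] at h6
  have h4 : y0 ∈ closure C := mem_closure_of_tendsto h3 (Eventually.of_forall h1)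
  obtain ⟨φ, g, s, q, hφ, hg, hs, hq, hlim⟩ := zom n C Γ h _ h1 h2
  exact lim0 n C Γ h g s (fun m => y (φ m) + (1 / (((φ m : ℕ) : ℝ) + 1)) • c) q y0 hg hs hq hlim
    (h3.comp hφ.tendsto_atTop) h4 hyC hy0

theorem crt : CrtStmt := by
  intro n C h ι _ _ w hcl hsum homit
  constructor
  · intro c hc
    have hne : (Finset.univ : Finset ι).Nonempty := by
      rw [Finset.univ_nonempty_iff]
      by_contra hne
      rw [not_nonempty_iff] at hne
      rw [Finset.univ_eq_empty, Finset.sum_empty] at hsum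
      exact h.zero hsum
    obtain ⟨i0, -, hi0⟩ := Finset.exists_min_image Finset.univ c hne
    have h1 : ∑ i, c i • w i = c i0 • ∑ i, w i + ∑ i, (c i - c i0) • w i := by
      rw [Finset.smul_sum, ← Finset.sum_add_distrib]
      exact Finset.sum_congr rfl fun i _ => by rw [← add_smul, add_sub_cancel]
    rw [h1]
    exact h.add_cl (h.smul _ hsum _ (hc i0))
      (h.cl_sum fun i hi => h.cl_smul (hcl i) (sub_nonneg.mpr (hi0 i hi)))
  · rintro c hc ⟨i, hi⟩ hmem
    have hS : 0 ≤ ∑ j, c j := Finset.sum_nonneg fun j _ => hc j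
    have hM : 0 < 1 + ∑ j, c j := by linarith
    have hMc : ∀ j, 0 ≤ 1 + ∑ j, c j - c j := by
      intro j
      have := Finset.single_le_sum (f := c) (fun j _ => hc j) (Finset.mem_univ j)
      linarith
    set M : ℝ := 1 + ∑ j, c j with hMdef
    have h1 : M • ∑ j ∈ Finset.univ.erase i, w j
        = ∑ j, c j • w j + ∑ j ∈ Finset.univ.erase i, (M - c j) • w j := by
      rw [← Finset.add_sum_erase _ (fun j => c j • w j) (Finset.mem_univ i), hi, zero_smul,
        zero_add, Finset.smul_sum, ← Finset.sum_add_distrib]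
      exact Finset.sum_congr rfl fun j _ => by rw [← add_smul, add_sub_cancel]
    have h2 : ∑ j, c j • w j + ∑ j ∈ Finset.univ.erase i, (M - c j) • w j ∈ C :=
      h.add_cl hmem (h.cl_sum fun j _ => h.cl_smul (hcl j) (hMc j))
    rw [← h1, h.smul_iff hM] at h2
    exact homit i h2

theorem lin : LinStmt := by
  intro n C h ι _ w hw
  classical
  rw [Fintype.linearIndependent_iff]
  have key : ∀ a : ι → ℝ, ∑ i, a i • w i = 0 → ∀ i, a i ≤ 0 := by
    intro a ha i
    by_contra hi
    rw [not_le] at hi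
    obtain ⟨i0, -, hi0⟩ := Finset.exists_max_image Finset.univ a ⟨i, Finset.mem_univ i⟩
    have h0 : 0 < a i0 := lt_of_lt_of_le hi (hi0 i (Finset.mem_univ i))
    refine hw.bd (fun j => 1 - a j / a i0) ?_ ⟨i0, ?_⟩ ?_
    · intro j
      rw [sub_nonneg, div_le_one h0]
      exact hi0 j (Finset.mem_univ j)
    · rw [div_self h0.ne', sub_self]
    · have h2 : ∑ j, (1 - a j / a i0) • w j = ∑ j, w j := by
        have h3 : ∑ j, (a j / a i0) • w j = (a i0)⁻¹ • ∑ j, a j • w j := by
          rw [Finset.smul_sum]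
          exact Finset.sum_congr rfl fun j _ => by rw [smul_smul, div_eq_inv_mul]
        simp only [sub_smul, one_smul, Finset.sum_sub_distrib]
        rw [h3, ha, smul_zero, sub_zero]
      rw [h2]
      exact hw.sum_mem
  intro a ha i
  refine le_antisymm (key a ha i) ?_
  have h4 := key (fun j => -a j) (by simp only [neg_smul, Finset.sum_neg_distrib, ha, neg_zero]) i
  linarith

theorem fun_ : FunStmt := by
  intro n C h ι _ _ w l hw
  set z : V n := ∑ m ∈ Finset.univ.erase l, w m with hz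
  have hz' : ∑ m, (if m = l then (0 : ℝ) else 1) • w m = z := by
    rw [← Finset.add_sum_erase _ _ (Finset.mem_univ l), if_pos rfl, zero_smul, zero_add]
    exact Finset.sum_congr rfl fun j hj => by rw [if_neg (Finset.ne_of_mem_erase hj), one_smul]
  have hzC : z ∉ C := by
    rw [← hz']
    exact hw.bd _ (fun j => by split_ifs <;> norm_num) ⟨l, if_pos rfl⟩
  have hzcl : z ∈ closure C := h.cl_sum fun j _ => hw.cl j
  obtain ⟨f, hf⟩ := geometric_hahn_banach_open_point h.convex h.isOpen hzC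
  -- f z ≥ 0
  have hfz : 0 ≤ f z := by
    by_contra hneg
    rw [not_le] at hneg
    obtain ⟨a, ha⟩ := h.nonempty
    have h1 := hf a ha
    have hfa : f a < 0 := h1.trans hneg
    have h2 : 0 < f z / f a := div_pos_of_neg_of_neg hneg hfa
    have h3 := hf _ (h.smul a ha _ h2)
    rw [map_smul, smul_eq_mul, div_mul_cancel₀ _ hfa.ne] at h3
    exact lt_irrefl _ h3
  have hle : ∀ a ∈ C, f a ≤ 0 := by
    intro a ha
    by_contra hpos
    rw [not_le] at hpos
    have h2 : 0 < (f z + 1) / f a := by positivity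
    have h3 := hf _ (h.smul a ha _ h2)
    rw [map_smul, smul_eq_mul, div_mul_cancel₀ _ hpos.ne'] at h3
    linarith
  have hlecl : ∀ a ∈ closure C, f a ≤ 0 := by
    intro a ha
    have hcl : IsClosed {x : V n | f x ≤ 0} := isClosed_le f.continuous continuous_const
    exact (closure_minimal (fun x hx => hle x hx) hcl) ha
  have hfz0 : f z = 0 := le_antisymm (hlecl z hzcl) hfz
  refine ⟨-(f : V n →ₗ[ℝ] ℝ), ?_, ?_, ?_, ?_⟩
  · intro x hx
    have := hf x hx
    rw [hfz0] at this
    change 0 < -(f x)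
    linarith
  · intro x hx
    have := hlecl x hx
    change 0 ≤ -(f x)
    linarith
  · intro m hm
    change -(f (w m)) = 0
    have h1 : ∑ m ∈ Finset.univ.erase l, -(f (w m)) = 0 := by
      rw [Finset.sum_neg_distrib, ← map_sum, hfz0, neg_zero]
    exact (Finset.sum_eq_zero_iff_of_nonneg fun j _ =>
      neg_nonneg.mpr (hlecl _ (hw.cl j))).mp h1 m (Finset.mem_erase.mpr ⟨hm, Finset.mem_univ m⟩)
  · change 0 < -(f (w l))
    have h1 := hf _ hw.sum_mem
    rw [← Finset.add_sum_erase _ _ (Finset.mem_univ l), map_add, hfz0] at h1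
    linarith

theorem elm : ElmStmt := by
  intro n C Γ h ι _ w hw
  classical
  have hul := h.hul
  have hne : (Finset.univ : Finset ι).Nonempty := by
    rw [Finset.univ_nonempty_iff]
    by_contra hne
    rw [not_nonempty_iff] at hne
    have := hw.1.sum_mem
    rw [Finset.univ_eq_empty, Finset.sum_empty] at this
    exact h.zero this
  have hcomb : ∀ c : ι → ℝ, (∀ i, 0 < c i) → ∑ i, c i • w i ∈ Hull C Γ := by
    intro c hc
    have key : ∀ s : Finset ι, s.Nonempty → ∑ i ∈ s, c i • w i ∈ Hull C Γ := by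
      intro s hs
      induction hs using Finset.Nonempty.cons_induction with
      | singleton a =>
        rw [Finset.sum_singleton]
        exact hul.smul _ (hul.lamHull _ (hw.2 a)) _ (hc a)
      | cons a s ha hs ih =>
        rw [Finset.sum_cons]
        exact hul.add _ (hul.smul _ (hul.lamHull _ (hw.2 a)) _ (hc a)) _ ih
    exact key _ hne
  refine ⟨?_, ?_, ?_, hcomb, ?_⟩
  · intro c hc
    refine ⟨⟨?_, ?_⟩, fun i => hul.lamSmul _ (hw.2 i) _ (hc i)⟩
    · intro d hd
      have := hw.1.pos (fun i => d i * c i) fun i => mul_pos (hd i) (hc i)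
      simpa only [smul_smul] using this
    · rintro d hd ⟨i, hi⟩
      have := hw.1.bd (fun i => d i * c i) (fun i => mul_nonneg (hd i) (hc i).le)
        ⟨i, by rw [hi, zero_mul]⟩
      simpa only [smul_smul] using this
  · intro g hg s hs
    have hsum : ∀ d : ι → ℝ, ∑ i, d i • (s • act g (w i)) = s • act g (∑ i, d i • w i) := by
      intro d
      rw [CC.act_sum, Finset.smul_sum]
      exact Finset.sum_congr rfl fun i _ => by rw [CC.act_smul, smul_comm]
    refine ⟨⟨?_, ?_⟩, fun i => hul.lamSmul _ (hul.lamAct _ (hw.2 i) g hg) s hs⟩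
    · intro d hd
      rw [hsum, h.sact_mem_iff hg hs]
      exact hw.1.pos d hd
    · intro d hd hz
      rw [hsum, h.sact_mem_iff hg hs]
      exact hw.1.bd d hd hz
  · intro κ _ e
    have hsum : ∀ d : κ → ℝ, ∑ i, d i • w (e i) = ∑ i, d (e.symm i) • w i := by
      intro d
      rw [← Equiv.sum_comp e]
      exact Finset.sum_congr rfl fun i _ => by rw [Equiv.symm_apply_apply]
    refine ⟨⟨?_, ?_⟩, fun i => hw.2 _⟩
    · intro d hd
      rw [hsum]
      exact hw.1.pos _ fun i => hd _
    · rintro d hd ⟨i, hi⟩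
      rw [hsum]
      exact hw.1.bd _ (fun i => hd _) ⟨e i, by rw [Equiv.symm_apply_apply]; exact hi⟩
  · intro u
    exact ⟨hw.1.pt_mem u, hcomb _ fun i => by positivity⟩

theorem lim (clo : CloStmt) (crt : CrtStmt) : LimStmt := by
  intro n C Γ h ι _ _ hcard x p hx hp hlim
  obtain ⟨B, hB, hnorm⟩ := h.normal
  have hul := h.hul
  have hne : Nonempty ι := by
    rw [← Fintype.card_pos_iff]; omega
  obtain ⟨R0, hR0⟩ := (Metric.isBounded_range_of_tendsto _ hlim).exists_norm_le
  have hR : ∀ m i, ‖x m i‖ ≤ B * R0 := by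
    intro m i
    have h1 := hnorm (x m i) (∑ j, x m j) (hul.hullCl _ (hx m i)) (by
      rw [← Finset.add_sum_erase _ _ (Finset.mem_univ i), add_sub_cancel_left]
      exact h.cl_sum fun j _ => hul.hullCl _ (hx m j))
    exact h1.trans (mul_le_mul_of_nonneg_left (hR0 _ ⟨m, rfl⟩) hB.le)
  have hRn : 0 ≤ B * R0 := (norm_nonneg _).trans (hR 0 (Classical.arbitrary ι))
  obtain ⟨w, -, φ, hφ, hw⟩ := tendsto_subseq_of_bounded
    (Metric.isBounded_closedBall (x := (0 : ι → V n)) (r := B * R0)) (x := x) (fun m => by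
      rw [mem_closedBall_zero_iff, pi_norm_le_iff_of_nonneg hRn]
      exact hR m)
  have hwi : ∀ i, Tendsto (fun m => x (φ m) i) atTop (𝓝 (w i)) := fun i =>
    (tendsto_pi_nhds.mp hw) i
  have hsum : ∑ i, w i = p :=
    tendsto_nhds_unique (tendsto_finsetSum _ fun i _ => hwi i) (hlim.comp hφ.tendsto_atTop)
  refine ⟨φ, w, hφ, hwi, hsum, fun homit => ?_⟩
  have hcl : ∀ i, w i ∈ closure C := fun i =>
    isClosed_closure.mem_of_tendsto (hwi i) (Eventually.of_forall fun m => hul.hullCl _ (hx _ i))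
  have hpes := crt n C h.toPCone ι w hcl (by rw [hsum]; exact hp) homit
  refine ⟨hpes, fun i => clo n C Γ h (fun m => x (φ m) i) (w i) (fun m => hx _ i) (hwi i) ?_ ?_⟩
  · intro hmem
    have : Nontrivial ι := Fintype.one_lt_card_iff_nontrivial.mp (by omega)
    obtain ⟨j, hj⟩ := exists_ne i
    refine hpes.bd (fun k => if k = i then (1 : ℝ) else 0) (fun k => by split_ifs <;> norm_num)
      ⟨j, if_neg hj⟩ ?_
    have : ∑ k, (if k = i then (1 : ℝ) else 0) • w k = w i := by simp
    rw [this]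
    exact hmem
  · intro h0
    apply homit i
    have h5 := Finset.add_sum_erase Finset.univ w (Finset.mem_univ i)
    rw [h0, zero_add] at h5
    rw [h5, hsum]
    exact hp

theorem lps (lim : LimStmt) : LpsStmt := by
  intro n C Γ h ι _ _ hcard x p hx hp hlim
  have hul := h.hul
  obtain ⟨φ, w, hφ, hwi, hsum, hlast⟩ :=
    lim n C Γ h ι hcard x p (fun m i => hul.lamHull _ ((hx m).2 i)) hp hlim
  refine ⟨φ, w, hφ, hwi, hsum, hlast fun i hmem => ?_⟩
  have h1 : Tendsto (fun m => ∑ j ∈ Finset.univ.erase i, x (φ m) j) atTop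
      (𝓝 (∑ j ∈ Finset.univ.erase i, w j)) := tendsto_finsetSum _ fun j _ => hwi j
  obtain ⟨m, hm⟩ := (h1.eventually (h.isOpen.mem_nhds hmem)).exists
  refine (hx (φ m)).1.bd (fun j => if j = i then 0 else 1) (fun j => by split_ifs <;> norm_num)
    ⟨i, if_pos rfl⟩ ?_
  have h2 : ∑ j, (if j = i then (0 : ℝ) else 1) • x (φ m) j
      = ∑ j ∈ Finset.univ.erase i, x (φ m) j := by
    rw [← Finset.add_sum_erase _ _ (Finset.mem_univ i), if_pos rfl, zero_smul, zero_add]
    exact Finset.sum_congr rfl fun j hj => by rw [if_neg (Finset.ne_of_mem_erase hj), one_smul]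
  rw [h2]
  exact hm

end Pool.Agent.PFS.H60
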