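import Pool.Agent.PFS.Stmts

/-!
# PFS squad: rows LIM0 and ZOM
-/

set_option autoImplicit false

open Matrix Filter Topology

namespace Pool.Agent.PFS.H60

theorem lim0 : Lim0Stmt := by
  intro n C Γ h g s y q y0 hg hs hq hlim hy hycl hyC hy0
  set z : ℕ → V n := fun m => (s m)⁻¹ • act (g m)⁻¹ q with hz
  obtain ⟨B, hB, hnorm⟩ := h.normal
  -- `z → y0`
  have hzlim : Tendsto z atTop (𝓝 y0) := by
    rw [Metric.tendsto_atTop]
    intro ε hε
    -- bound for the norms of y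
    have hyb : ∀ᶠ m in atTop, ‖y m‖ ≤ ‖y0‖ + 1 := by
      have h1 : ∀ᶠ m in atTop, ‖y m‖ < ‖y0‖ + 1 :=
        hy.norm.eventually (gt_mem_nhds (by linarith))
      exact h1.mono fun m hm => hm.le
    set R : ℝ := ‖y0‖ + 1 with hR
    have hRp : 0 < R := by have := norm_nonneg y0; linarith
    -- choose M
    set δ : ℝ := min 1 (ε / (4 * (B + 1) * R)) with hδ
    have hδp : 0 < δ := by
      rw [hδ]
      exact lt_min one_pos (by positivity)
    set M : ℝ := 1 + δ with hM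
    have hM1 : 1 < M := by linarith
    have hMp : 0 < M := by linarith
    have hMi : M - M⁻¹ ≤ 2 * δ := by
      have h1 : M⁻¹ ≥ 1 - δ := by
        rw [ge_iff_le, ← one_div, le_div_iff₀ hMp]
        nlinarith
      linarith
    have hMi2 : 1 - M⁻¹ ≤ δ := by
      have h1 : M⁻¹ ≥ 1 - δ := by
        rw [ge_iff_le, ← one_div, le_div_iff₀ hMp]
        nlinarith
      linarith
    have hMi0 : 0 ≤ 1 - M⁻¹ := by
      have : M⁻¹ ≤ 1 := inv_le_one_of_one_le₀ hM1.le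
      linarith
    have hMM : 0 ≤ M - M⁻¹ := by linarith
    have hsq := h.toPCone.squeeze hq hlim hM1
    have hyd : ∀ᶠ m in atTop, dist (y m) y0 < ε / 4 :=
      (Metric.tendsto_nhds.mp hy) (ε / 4) (by positivity)
    obtain ⟨N, hN⟩ := eventually_atTop.mp (hsq.and (hyb.and hyd))
    refine ⟨N, fun m hm => ?_⟩
    obtain ⟨⟨h1, h2⟩, h3, h4⟩ := hN m hm
    have hsi : 0 < (s m)⁻¹ := inv_pos.mpr (hs m)
    have hgi : (g m)⁻¹ ∈ Γ := Γ.inv_mem (hg m)
    have e1 : (s m)⁻¹ • act (g m)⁻¹ (M • q - s m • act (g m) (y m)) = M • z m - y m := by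
      rw [CC.act_sub, CC.act_smul, CC.act_smul, CC.act_inv_act, smul_sub, smul_smul, smul_smul,
        inv_mul_cancel₀ (hs m).ne', one_smul, mul_comm, ← smul_smul]
    have e2 : (s m)⁻¹ • act (g m)⁻¹ (M • (s m • act (g m) (y m)) - q) = M • y m - z m := by
      have e3 : (s m)⁻¹ * M * s m = M := by
        rw [mul_comm, ← mul_assoc, mul_inv_cancel₀ (hs m).ne', one_mul]
      rw [CC.act_sub, CC.act_smul, CC.act_smul, CC.act_inv_act, smul_sub, smul_smul, smul_smul, e3]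
    have h5 : M • z m - y m ∈ closure C := by
      rw [← e1]
      exact h.cl_smul (h.act_cl hgi (subset_closure h1)) hsi.le
    have h6 : M • y m - z m ∈ closure C := by
      rw [← e2]
      exact h.cl_smul (h.act_cl hgi (subset_closure h2)) hsi.le
    have h7 : z m - M⁻¹ • y m ∈ closure C := by
      have := h.cl_smul h5 (inv_pos.mpr hMp).le
      rwa [smul_sub, smul_smul, inv_mul_cancel₀ hMp.ne', one_smul] at this
    have h8 : (M - M⁻¹) • y m - (z m - M⁻¹ • y m) ∈ closure C := by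
      have : (M - M⁻¹) • y m - (z m - M⁻¹ • y m) = M • y m - z m := by
        rw [sub_smul]; abel
      rwa [this]
    have h9 := hnorm _ _ h7 h8
    rw [norm_smul, Real.norm_of_nonneg hMM] at h9
    -- final estimate
    have h10 : ‖z m - y0‖ ≤ ‖z m - M⁻¹ • y m‖ + ‖(1 - M⁻¹) • y m‖ + ‖y m - y0‖ := by
      have e3 : z m - y0 = (z m - M⁻¹ • y m) - (1 - M⁻¹) • y m + (y m - y0) := by
        rw [sub_smul, one_smul]; abel
      calc ‖z m - y0‖ = ‖(z m - M⁻¹ • y m) - (1 - M⁻¹) • y m + (y m - y0)‖ := by rw [← e3]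
        _ ≤ ‖(z m - M⁻¹ • y m) - (1 - M⁻¹) • y m‖ + ‖y m - y0‖ := norm_add_le _ _
        _ ≤ ‖z m - M⁻¹ • y m‖ + ‖(1 - M⁻¹) • y m‖ + ‖y m - y0‖ := by
          have := norm_sub_le (z m - M⁻¹ • y m) ((1 - M⁻¹) • y m)
          linarith
    rw [norm_smul, Real.norm_of_nonneg hMi0] at h10
    rw [dist_eq_norm] at h4 ⊢
    have hyn := norm_nonneg (y m)
    have h11 : B * ((M - M⁻¹) * ‖y m‖) ≤ B * ((2 * δ) * R) := by
      apply mul_le_mul_of_nonneg_left _ hB.le
      exact mul_le_mul hMi h3 hyn (by positivity)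
    have h12 : (1 - M⁻¹) * ‖y m‖ ≤ δ * R := mul_le_mul hMi2 h3 hyn hδp.le
    have h13 : δ * (4 * (B + 1) * R) ≤ ε := by
      have : δ ≤ ε / (4 * (B + 1) * R) := min_le_right _ _
      rwa [le_div_iff₀ (by positivity)] at this
    have h14 : B * ((2 * δ) * R) + δ * R ≤ ε / 2 := by
      have h15 : δ * (4 * (B + 1) * R) = 4 * (B * (δ * R)) + 4 * (δ * R) := by ring
      have h16 : 0 < δ * R := by positivity
      have h17 : B * ((2 * δ) * R) = 2 * (B * (δ * R)) := by ring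
      rw [h17]
      rw [h15] at h13
      linarith
    linarith
  -- the normalised sequence
  have hy0p : 0 < ‖y0‖ := norm_pos_iff.mpr hy0
  refine ⟨‖y0‖, hy0p, ‖y0‖⁻¹ • y0, ⟨?_, ?_, ?_, q, hq, ?_⟩, ?_⟩
  · rw [norm_smul, norm_inv, norm_norm, inv_mul_cancel₀ hy0p.ne']
  · exact h.cl_smul hycl (inv_pos.mpr hy0p).le
  · rw [h.smul_iff (inv_pos.mpr hy0p)]; exact hyC
  · have hconv : Tendsto (fun m => ‖z m‖⁻¹ • z m) atTop (𝓝 (‖y0‖⁻¹ • y0)) :=
      (hzlim.norm.inv₀ hy0p.ne').smul hzlim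
    refine mem_closure_of_tendsto hconv (Eventually.of_forall fun m => ?_)
    refine ⟨(g m)⁻¹, Γ.inv_mem (hg m), ?_⟩
    have hsi : 0 < (s m)⁻¹ := inv_pos.mpr (hs m)
    change ‖(s m)⁻¹ • act (g m)⁻¹ q‖⁻¹ • ((s m)⁻¹ • act (g m)⁻¹ q)
      = ‖act (g m)⁻¹ q‖⁻¹ • act (g m)⁻¹ q
    rw [norm_smul, Real.norm_of_nonneg hsi.le, smul_smul, mul_inv, inv_inv]
    congr 1
    rw [mul_comm (s m), mul_assoc, mul_inv_cancel₀ (hs m).ne', mul_one]
  · rw [smul_smul, mul_inv_cancel₀ hy0p.ne', one_smul]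

theorem zom : ZomStmt := by
  intro n C Γ h p hp hph
  obtain ⟨K, hK, hKC, hco⟩ := h.cocompact
  choose g hg t ht hmem using fun m => hco (p m) (hp m) (hph m)
  obtain ⟨q, hq, φ, hφ, hlim⟩ := hK.tendsto_subseq hmem
  exact ⟨φ, fun m => g (φ m), fun m => t (φ m), q, hφ, fun m => hg _, fun m => ht _, hKC hq, hlim⟩

end Pool.Agent.PFS.H60
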